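import Mathlib

/-!
# An integer point on the cubic surface `y² z + y z² = 3 x³ + x² + x - 1`

The point was found by a search over the divisors of `3 x³ + x² + x - 1` for `|x| < 10^12`
(a sieve over the roots of `3 x³ + x² + x - 1` modulo the middle-sized divisor).
-/

set_option autoImplicit false

namespace Pool.Agent.Results.MP_49f43a_nt.IntegerPoint

/-- The equation `y² z + y z² = 3 x³ + x² + x - 1` has an integer solution. -/
theorem result : ∃ x y z : ℤ, y ^ 2 * z + y * z ^ 2 = 3 * x ^ 3 + x ^ 2 + x - 1 :=
  ⟨-783954692511, 1797526169071, -838276125548, by norm_num⟩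

end Pool.Agent.Results.MP_49f43a_nt.IntegerPoint
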